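import Pool.Agent.H37.CNW.Stmts
import Pool.Agent.H81.CNR.WRP
import Pool.Agent.H3.CNS.ZUC

/-!
# Row XPP of the board `cnw`: `C_p ≀_Ω H` for `p`-groups `H`, `Ω` transitive and faithful
-/

set_option autoImplicit false

namespace Pool.CND

/-- the upper bound for `p`-groups, all exponents `a ≥ 0` (as `zuc_thm`) -/
theorem xpp_zuc (h1 : S_GDV) (p a : ℕ) (k G : Type) [Field k] [IsAlgClosed k] [Group G]
    [Finite G] (hp : p.Prime) (hch : CharP k p) (hG : ∃ n : ℕ, Nat.card G = p ^ n)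
    (hz : ∀ z ∈ Subgroup.center G, z ^ p = 1 → z ≠ 1 → ∃ H : Subgroup G, z ∈ H ∧ z ∉ ⁅H, H⁆ ∧
      H.index ∣ p ^ a) : NG k G ∣ p ^ a := by
  obtain ⟨n, hn⟩ := hG
  have key := h1 p k G a 1 hp hch le_rfl (fun W _ hcl => ?_)
  · simpa using key.2
  · have hWt : W = ⊤ := zuc_top hp ⟨n, hn⟩ W hcl
    subst hWt
    refine ⟨fun z _ hz1 hzp hzc => ?_, fun g C hg _ _ _ _ _ _ _ x _ => ?_⟩
    · obtain ⟨H, hzH, hzc', hidx⟩ := hz z
        (Subgroup.mem_center_iff.2 fun w => hzc w (Subgroup.mem_top w)) hzp hz1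
      obtain ⟨d, hd, hidx'⟩ := (Nat.dvd_prime_pow hp).1 hidx
      refine ⟨H, d, le_top, hzH, hzc', hd, ?_⟩
      rw [Subgroup.card_top, ← hidx', mul_comm]
      exact (Subgroup.card_mul_index H).symm
    · have hg1 : g = 1 := by
        have hdvd : orderOf g ∣ p ^ n := hn ▸ orderOf_dvd_natCard g
        obtain ⟨m, _, hm⟩ := (Nat.dvd_prime_pow hp).1 hdvd
        rcases Nat.eq_zero_or_pos m with h0 | h0
        · rw [h0, pow_zero] at hm
          exact orderOf_eq_one_iff.1 hm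
        · exfalso
          apply hg
          rw [hm]
          exact dvd_pow_self p h0.ne'
      rw [hg1]
      simp

/-- the orbits of the inertia groups for a `p`-group and a transitive set -/
theorem xpp_ior (hPTR : S_PTR) (hPEX : S_PEX) (hEXI : S_EXI) (p : ℕ) (k H Ω : Type) [Field k]
    [IsAlgClosed k] [Group H] [Finite H] [Nonempty Ω] [MulAction H Ω]
    [MulAction.IsPretransitive H Ω] (hp : p.Prime) (hch : CharP k p)
    (hH : ∃ n : ℕ, Nat.card H = p ^ n) (r : ℕ) : r ∈ Ior k H Ω ↔ r = Nat.card Ω := by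
  have key : ∀ (L : Type) [Field L] [Algebra k L] (ρ : H →* (L ≃ₐ[k] L)) (t : L) (P : Place k L)
      (ω : Ω), IsCover ρ t → P.ord t < 0 →
      ({ω' : Ω | ∃ h ∈ ram P ρ 0, ω' = h • ω} : Set Ω).ncard = Nat.card Ω := by
    intro L _ _ ρ t P ω hc hP
    have h1 := hPTR p k L H ρ t P hp hch hH hc hP
    have h0 : ∀ g : H, g ∈ ram P ρ 0 := by
      intro g
      have hg : g ∈ ram P ρ 1 := by rw [h1]; trivial
      refine ⟨hg.1, fun u hu hu1 => ?_⟩
      rcases hg.2 u hu hu1 with h | h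
      · exact Or.inl h
      · right
        push_cast at h ⊢
        linarith
    have h2 : ({ω' : Ω | ∃ h ∈ ram P ρ 0, ω' = h • ω} : Set Ω) = Set.univ := by
      apply Set.eq_univ_of_forall
      intro ω'
      obtain ⟨h, hh⟩ := MulAction.exists_smul_eq H ω ω'
      exact ⟨h, h0 h, hh.symm⟩
    rw [h2, Set.ncard_univ]
  constructor
  · rintro ⟨L, _, _, ρ, t, hc, P, hP, ω, rfl⟩
    exact key L ρ t P ω hc hP
  · rintro rfl
    obtain ⟨ω⟩ := (inferInstance : Nonempty Ω)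
    obtain ⟨L, iL, iA, x, ρ, -, hc⟩ := hPEX p k H (fun _ => 0) hp hH (fun _ _ => by simp)
    obtain ⟨hfin, hsep⟩ := TWI.fin_sep ρ _ hc
    obtain ⟨P, hP⟩ := hEXI k L _ hc.trans hfin hsep
    exact ⟨L, iL, iA, ρ, _, hc, P, hP, ω, (key L ρ _ P ω hc hP).symm⟩

/-- for `z` central fixing no point: the subgroup generated by a point stabiliser and `z` -/
theorem xpp_sub (p a : ℕ) (H Ω : Type) [Group H] [Finite H] [MulAction H Ω]
    [MulAction.IsPretransitive H Ω] [FaithfulSMul H Ω] (hp : p.Prime)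
    (ha : Nat.card Ω = p ^ (a + 1)) (ω : Ω) (z : H)
    (hz : z ∈ Subgroup.center H) (hz1 : z ≠ 1) :
    ∃ K : Subgroup H, z ∈ K ∧ z ∉ ⁅K, K⁆ ∧ K.index ∣ p ^ a := by
  have hzc : ∀ g : H, g * z = z * g := fun g => Subgroup.mem_center_iff.1 hz g
  have hzU : z ∉ MulAction.stabilizer H ω := by
    intro h
    apply hz1
    apply FaithfulSMul.eq_of_smul_eq_smul (α := Ω)
    intro ω'
    obtain ⟨g, rfl⟩ := MulAction.exists_smul_eq H ω ω'
    rw [one_smul, smul_smul, ← hzc g, mul_smul, MulAction.mem_stabilizer_iff.1 h]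
  have hN : (Subgroup.zpowers z).Normal := by
    constructor
    rintro _ ⟨i, rfl⟩ g
    have h : Commute g (z ^ i) := (show Commute g z from hzc g).zpow_right i
    rw [h.eq, mul_inv_cancel_right]
    exact ⟨i, rfl⟩
  refine ⟨MulAction.stabilizer H ω ⊔ Subgroup.zpowers z,
    (le_sup_right : Subgroup.zpowers z ≤ _) (Subgroup.mem_zpowers z), fun h => hzU ?_, ?_⟩
  · refine (Subgroup.commutator_le.2 ?_ : _ ≤ MulAction.stabilizer H ω) h
    intro g₁ hg₁ g₂ hg₂
    obtain ⟨u, hu, _, ⟨i, rfl⟩, rfl⟩ := Subgroup.mem_sup_of_normal_right.1 hg₁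
    obtain ⟨v, hv, _, ⟨j, rfl⟩, rfl⟩ := Subgroup.mem_sup_of_normal_right.1 hg₂
    have c1 : ∀ (g : H) (i : ℤ), Commute g (z ^ i) := fun g i =>
      (show Commute g z from hzc g).zpow_right i
    have e1 : v * z ^ j * (u * z ^ i) = v * u * z ^ (j + i) := by
      rw [zpow_add, mul_assoc, ← mul_assoc (z ^ j) u, ← (c1 u j).eq]
      group
    have e2 : u * z ^ i * (v * z ^ j) = u * v * z ^ (j + i) := by
      rw [add_comm, zpow_add, mul_assoc, ← mul_assoc (z ^ i) v, ← (c1 v i).eq]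
      group
    have e3 : ∀ x y : H, x * y * x⁻¹ * y⁻¹ = (x * y) * (y * x)⁻¹ := by
      intro x y
      group
    rw [commutatorElement_def, e3, e1, e2]
    have e4 : u * v * z ^ (j + i) * (v * u * z ^ (j + i))⁻¹ = u * v * u⁻¹ * v⁻¹ := by
      group
    rw [e4]
    exact mul_mem (mul_mem (mul_mem hu hv) (inv_mem hu)) (inv_mem hv)
  · have h1 : (MulAction.stabilizer H ω).index = Nat.card Ω :=
      MulAction.index_stabilizer_of_transitive H ω
    have hle : MulAction.stabilizer H ω ≤ MulAction.stabilizer H ω ⊔ Subgroup.zpowers z :=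
      le_sup_left
    have h2 := Subgroup.relIndex_mul_index hle
    rw [h1, ha] at h2
    obtain ⟨d, -, hd⟩ := (Nat.dvd_prime_pow hp).1 (Dvd.intro _ h2)
    have hd0 : d ≠ 0 := by
      rintro rfl
      rw [pow_zero, Subgroup.relIndex_eq_one] at hd
      exact hzU (hd ((le_sup_right : Subgroup.zpowers z ≤ _) (Subgroup.mem_zpowers z)))
    obtain ⟨e, rfl⟩ := Nat.exists_eq_succ_of_ne_zero hd0
    rw [hd] at h2
    refine ⟨p ^ e, ?_⟩
    have h3 : p * (p ^ a) = p * ((MulAction.stabilizer H ω ⊔ Subgroup.zpowers z).index * p ^ e) := by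
      rw [← pow_succ', ← h2, Nat.succ_eq_add_one, pow_succ]
      ring
    exact Nat.eq_of_mul_eq_mul_left hp.pos h3

/-- **XPP** -/
theorem xpp_thm (hXPW : S_XPW) (hPTR : S_PTR) (hPEX : S_PEX) (hEXI : S_EXI) (hGDV : S_GDV) :
    S_XPP := by
  intro p k H Ω _ _ _ _ _ _ _ _ _ hp hch hH
  have hΩ : Nonempty Ω := by
    by_contra hne
    rw [not_nonempty_iff] at hne
    obtain ⟨g, hg⟩ := exists_ne (1 : H)
    exact hg (FaithfulSMul.eq_of_smul_eq_smul (α := Ω) fun ω => (hne.false ω).elim)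
  obtain ⟨ω⟩ := (inferInstance : Nonempty Ω)
  have hI := xpp_ior hPTR hPEX hEXI p k H Ω hp hch hH
  obtain ⟨a, ha⟩ : ∃ a : ℕ, Nat.card Ω = p ^ (a + 1) := by
    obtain ⟨n, hn⟩ := hH
    have h1 : (MulAction.stabilizer H ω).index = Nat.card Ω :=
      MulAction.index_stabilizer_of_transitive H ω
    have h2 : Nat.card Ω ∣ p ^ n := by
      rw [← h1, ← hn]
      exact Subgroup.index_dvd_card _
    obtain ⟨d, -, hd⟩ := (Nat.dvd_prime_pow hp).1 h2
    have hd0 : d ≠ 0 := by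
      rintro rfl
      rw [pow_zero, Nat.card_eq_one_iff_unique] at hd
      obtain ⟨hs, -⟩ := hd
      obtain ⟨g, hg⟩ := exists_ne (1 : H)
      exact hg (FaithfulSMul.eq_of_smul_eq_smul (α := Ω) fun ω => Subsingleton.elim _ _)
    obtain ⟨e, rfl⟩ := Nat.exists_eq_succ_of_ne_zero hd0
    exact ⟨e, hd⟩
  have hN : NG k H ∣ p ^ a := xpp_zuc hGDV p a k H hp hch hH fun z hz _ hz1 =>
    xpp_sub p a H Ω hp ha ω z hz hz1
  obtain ⟨h1, h2, -⟩ := hXPW p k H Ω hp hch
  have h3 := h1 _ ((hI _).2 rfl)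
  by_cases hp2 : p = 2
  · subst hp2
    have hg : Nat.gcd 2 2 = 2 := by norm_num
    rw [hg] at h2 h3 ⊢
    have h4 := h2 (2 ^ a) (Nat.one_le_two_pow) hN (fun r hr => by
      rw [(hI r).1 hr, ha, pow_succ'])
    rw [ha] at h3 ⊢
    apply Nat.dvd_antisymm _ h3
    rw [pow_succ']
    exact Nat.mul_dvd_mul_left 2 h4
  · have hg : Nat.gcd 2 p = 1 := (Nat.coprime_primes Nat.prime_two hp).2 (Ne.symm hp2)
    rw [hg] at h2 h3 ⊢
    rw [one_mul] at h3 ⊢
    have h4 := h2 (p ^ (a + 1)) (Nat.one_le_pow _ _ hp.pos) (hN.trans (pow_dvd_pow p (Nat.le_succ a)))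
      (fun r hr => by rw [(hI r).1 hr, ha, one_mul])
    rw [ha] at h3 ⊢
    exact Nat.dvd_antisymm h4 h3

end Pool.CND
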